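import Mathlib

set_option autoImplicit false

/-!
`p`-intersection numbers.
-/

namespace Pool.Agent.K3h86.QI

/-- `G` has a `p`-intersection representation on `{1, …, t}`: sets `S v` such that two distinct
vertices `u`, `v` are adjacent if and only if `|S u ∩ S v| ≥ p`. -/
def Rep {V : Type*} (G : SimpleGraph V) (p t : ℕ) : Prop :=
  ∃ S : V → Finset (Fin t), ∀ u v, u ≠ v → (G.Adj u v ↔ p ≤ (S u ∩ S v).card)

/-- The `p`-intersection number of `G`: the least `t` such that `G` has a `p`-intersection
representation on `{1, …, t}`. -/
noncomputable def theta {V : Type*} (G : SimpleGraph V) (p : ℕ) : ℕ := sInf {t | Rep G p t}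

end Pool.Agent.K3h86.QI
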