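import Pool.Agent.K3h86.QI.Defs

set_option autoImplicit false

/-!
The lower bound for the `p`-intersection number of complete multipartite graphs.
-/

namespace Pool.Agent.K3h86.QI

open Finset

theorem exists_enc {α : Type*} {B : ℕ} (A : Finset α) (h : A.card ≤ B) :
    ∃ f : Fin B → Option α, ∀ x, x ∈ A ↔ ∃ b, f b = some x := by
  classical
  refine ⟨fun b => A.toList[(b : ℕ)]?, fun x => ?_⟩
  rw [← Finset.mem_toList, List.mem_iff_getElem?]
  constructor
  · rintro ⟨m, hm⟩
    have h1 : m < A.toList.length := by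
      by_contra hcon
      rw [List.getElem?_eq_none (not_lt.1 hcon)] at hm
      simp at hm
    rw [Finset.length_toList] at h1
    exact ⟨⟨m, by omega⟩, hm⟩
  · rintro ⟨b, hb⟩
    exact ⟨b, hb⟩

/-- the counting form of the two families theorem -/
theorem two_families {t r : ℕ} {κ : Type*} (F : Finset κ) (A C : κ → Finset (Fin t))
    (hdisj : ∀ l ∈ F, Disjoint (A l) (C l)) (hr : ∀ l ∈ F, (A l).card + (C l).card ≤ r)
    (hcross : ∀ l ∈ F, ∀ m ∈ F, l ≠ m → ∃ x, x ∈ A l ∧ x ∈ C m) :
    F.card ≤ 2 ^ r := by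
  classical
  rcases le_or_gt r t with hrt | hrt
  · have h1 : ∀ l ∈ F, 2 ^ (t - r) ≤ (Finset.Icc (A l) (C l)ᶜ).card := by
      intro l hl
      have hsub : A l ⊆ (C l)ᶜ := by
        intro x hx
        rw [mem_compl]
        exact Finset.disjoint_left.1 (hdisj l hl) hx
      rw [Finset.card_Icc_finset hsub]
      apply Nat.pow_le_pow_right (by norm_num)
      rw [card_compl, Fintype.card_fin]
      have := hr l hl
      omega
    have h2 : (F : Set κ).PairwiseDisjoint fun l => Finset.Icc (A l) (C l)ᶜ := by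
      intro l hl m hm hlm
      rw [Function.onFun, Finset.disjoint_left]
      intro X hX hX'
      rw [Finset.mem_Icc] at hX hX'
      obtain ⟨x, hx, hx'⟩ := hcross l hl m hm hlm
      have h3 := hX'.2 (hX.1 hx)
      rw [mem_compl] at h3
      exact h3 hx'
    have h3 : F.card * 2 ^ (t - r) ≤ 2 ^ t := by
      calc F.card * 2 ^ (t - r) = ∑ _l ∈ F, 2 ^ (t - r) := by rw [Finset.sum_const, smul_eq_mul]
        _ ≤ ∑ l ∈ F, (Finset.Icc (A l) (C l)ᶜ).card := Finset.sum_le_sum h1
        _ = (F.biUnion fun l => Finset.Icc (A l) (C l)ᶜ).card := (Finset.card_biUnion h2).symm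
        _ ≤ (univ : Finset (Finset (Fin t))).card := Finset.card_le_card (Finset.subset_univ _)
        _ = 2 ^ t := by simp
    have h4 : 2 ^ t = 2 ^ r * 2 ^ (t - r) := by rw [← pow_add]; congr 1; omega
    rw [h4] at h3
    exact Nat.le_of_mul_le_mul_right h3 (by positivity)
  · -- the sets `A l` are different
    have h1 : Set.InjOn A F := by
      intro l hl m hm h
      by_contra hlm
      obtain ⟨x, hx, hx'⟩ := hcross l hl m hm hlm
      rw [h] at hx
      exact Finset.disjoint_left.1 (hdisj m hm) hx hx'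
    calc F.card = (F.image A).card := (Finset.card_image_of_injOn h1).symm
      _ ≤ (univ : Finset (Finset (Fin t))).card := Finset.card_le_card (Finset.subset_univ _)
      _ = 2 ^ t := by simp
      _ ≤ 2 ^ r := Nat.pow_le_pow_right (by norm_num) hrt.le

theorem lower {n k p t : ℕ} (hn : 2 ≤ n) (hp : 1 ≤ p)
    (h : Rep (SimpleGraph.completeMultipartiteGraph fun _ : Fin k => Fin n) p t) :
    k ≤ 2 ^ (2 * t / n) * (n * ((t + 1) ^ (n * n * p)) ^ n) := by
  classical
  haveI : NeZero n := ⟨by omega⟩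
  obtain ⟨S, hS⟩ := h
  set B := n * n * p with hB
  -- the overlaps
  set O : Fin k → Finset (Fin t) := fun l =>
    univ.biUnion fun i : Fin n => univ.biUnion fun j : Fin n =>
      if i ≠ j then S ⟨l, i⟩ ∩ S ⟨l, j⟩ else ∅ with hO
  have hmemO : ∀ l x, x ∈ O l ↔ ∃ i j, i ≠ j ∧ x ∈ S ⟨l, i⟩ ∧ x ∈ S ⟨l, j⟩ := by
    intro l x
    simp only [hO, mem_biUnion, mem_univ, true_and]
    constructor
    · rintro ⟨i, j, hx⟩
      split_ifs at hx with hij
      · exact ⟨i, j, hij, (mem_inter.1 hx).1, (mem_inter.1 hx).2⟩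
      · simp at hx
    · rintro ⟨i, j, hij, h1, h2⟩
      exact ⟨i, j, by rw [if_pos hij]; exact mem_inter.2 ⟨h1, h2⟩⟩
  have hsame : ∀ l (i j : Fin n), i ≠ j → (S ⟨l, i⟩ ∩ S ⟨l, j⟩).card < p := by
    intro l i j hij
    have h1 := hS ⟨l, i⟩ ⟨l, j⟩ (by
      intro h
      apply hij
      simpa using h)
    by_contra hcon
    have := h1.2 (not_lt.1 hcon)
    exact this rfl
  have hdiff : ∀ l m (i j : Fin n), l ≠ m → p ≤ (S ⟨l, i⟩ ∩ S ⟨m, j⟩).card := by
    intro l m i j hlm
    refine (hS ⟨l, i⟩ ⟨m, j⟩ ?_).1 hlm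
    intro h
    apply hlm
    exact congrArg Sigma.fst h
  have hOcard : ∀ l, (O l).card ≤ B := by
    intro l
    calc (O l).card ≤ ∑ i : Fin n, (univ.biUnion fun j : Fin n =>
          if i ≠ j then S ⟨l, i⟩ ∩ S ⟨l, j⟩ else ∅).card := Finset.card_biUnion_le
      _ ≤ ∑ i : Fin n, ∑ j : Fin n, (if i ≠ j then S ⟨l, i⟩ ∩ S ⟨l, j⟩ else ∅).card :=
          Finset.sum_le_sum fun i _ => Finset.card_biUnion_le
      _ ≤ ∑ i : Fin n, ∑ j : Fin n, p := by
          refine Finset.sum_le_sum fun i _ => Finset.sum_le_sum fun j _ => ?_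
          split_ifs with hij
          · exact (hsame l i j hij).le
          · simp
      _ = B := by simp [hB, mul_assoc]
  have henc : ∀ (l : Fin k) (i : Fin n), ∃ f : Fin B → Option (Fin t),
      ∀ x, x ∈ S ⟨l, i⟩ ∩ O l ↔ ∃ b, f b = some x := fun l i =>
    exists_enc _ ((Finset.card_le_card inter_subset_right).trans (hOcard l))
  choose f hf using henc
  -- the sets without the overlaps
  set A : Fin k → Fin n → Finset (Fin t) := fun l i => S ⟨l, i⟩ \ O l with hA
  have hAdisj : ∀ l (i j : Fin n), i ≠ j → Disjoint (A l i) (A l j) := by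
    intro l i j hij
    rw [Finset.disjoint_left]
    intro x hx hx'
    rw [hA, Finset.mem_sdiff] at hx hx'
    exact hx.2 ((hmemO l x).2 ⟨i, j, hij, hx.1, hx'.1⟩)
  have hi1 : ∀ i : Fin n, i ≠ i + 1 := by
    intro i h
    have h1 : (1 : Fin n) = 0 := by
      have := h.symm
      rwa [add_eq_left] at this
    have h2 := congrArg Fin.val h1
    rw [Fin.val_zero, Fin.val_one'] at h2
    rw [Nat.mod_eq_of_lt (by omega)] at h2
    omega
  have hexi : ∀ l, ∃ i : Fin n, (A l i).card + (A l (i + 1)).card ≤ 2 * t / n := by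
    intro l
    by_contra hcon
    push Not at hcon
    have h1 : ∀ i : Fin n, 2 * t < ((A l i).card + (A l (i + 1)).card) * n := by
      intro i
      exact (Nat.div_lt_iff_lt_mul (by omega)).1 (hcon i)
    have h2 : ∑ i : Fin n, (A l i).card ≤ t := by
      rw [← Finset.card_biUnion (fun i _ j _ hij => hAdisj l i j hij)]
      calc _ ≤ (univ : Finset (Fin t)).card := Finset.card_le_card (Finset.subset_univ _)
        _ = t := by simp
    have h3 : ∑ i : Fin n, (A l (i + 1)).card = ∑ i : Fin n, (A l i).card :=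
      Equiv.sum_comp (Equiv.addRight (1 : Fin n)) (fun i => (A l i).card)
    have h4 : ∑ _i : Fin n, (2 * t) < ∑ i : Fin n, ((A l i).card + (A l (i + 1)).card) * n :=
      Finset.sum_lt_sum_of_nonempty ⟨0, mem_univ _⟩ fun i _ => h1 i
    rw [← Finset.sum_mul (f := fun i => (A l i).card + (A l (i + 1)).card),
      Finset.sum_add_distrib, h3, Finset.sum_const, card_univ, Fintype.card_fin,
      smul_eq_mul] at h4
    have h5 : (∑ i : Fin n, (A l i).card + ∑ i : Fin n, (A l i).card) * n ≤ n * (2 * t) := by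
      rw [mul_comm]
      exact Nat.mul_le_mul_left _ (by omega)
    omega
  choose c hc using hexi
  set κ : Fin k → Fin n × (Fin n → Fin B → Option (Fin t)) := fun l => (c l, f l) with hκ
  have hfib : ∀ y ∈ (univ : Finset (Fin k)).image κ,
      ((univ : Finset (Fin k)).filter fun l => κ l = y).card ≤ 2 ^ (2 * t / n) := by
    intro y _
    refine two_families (univ.filter fun l => κ l = y) (fun l => A l y.1) (fun l => A l (y.1 + 1))
      ?_ ?_ ?_
    · intro l _
      exact hAdisj l _ _ (hi1 _)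
    · intro l hl
      rw [mem_filter] at hl
      have : c l = y.1 := congrArg Prod.fst hl.2
      rw [← this]
      exact hc l
    · intro l hl m hm hlm
      rw [mem_filter] at hl hm
      have hff : f l = f m := (congrArg Prod.snd hl.2).trans (congrArg Prod.snd hm.2).symm
      have hP : ∀ i x, x ∈ S ⟨l, i⟩ ∩ O l ↔ x ∈ S ⟨m, i⟩ ∩ O m := by
        intro i x
        rw [hf l i x, hf m i x, hff]
      have hOO : ∀ x, x ∈ O l ↔ x ∈ O m := by
        have key : ∀ l m : Fin k, (∀ i x, x ∈ S ⟨l, i⟩ ∩ O l → x ∈ S ⟨m, i⟩ ∩ O m) →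
            ∀ x, x ∈ O l → x ∈ O m := by
          intro l m h x hx
          obtain ⟨i, j, hij, h1, h2⟩ := (hmemO l x).1 hx
          exact (mem_inter.1 (h i x (mem_inter.2 ⟨h1, hx⟩))).2
        intro x
        exact ⟨key l m (fun i x => (hP i x).1) x, key m l (fun i x => (hP i x).2) x⟩
      by_contra hcon
      push Not at hcon
      have hsub : S ⟨l, y.1⟩ ∩ S ⟨m, y.1 + 1⟩ ⊆ S ⟨l, y.1⟩ ∩ S ⟨l, y.1 + 1⟩ := by
        intro x hx
        rw [mem_inter] at hx ⊢
        refine ⟨hx.1, ?_⟩
        by_cases hxO : x ∈ O l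
        · have := (hP (y.1 + 1) x).2 (mem_inter.2 ⟨hx.2, (hOO x).1 hxO⟩)
          exact (mem_inter.1 this).1
        · exfalso
          refine hcon x ?_ ?_
          · rw [hA, Finset.mem_sdiff]
            exact ⟨hx.1, hxO⟩
          · rw [hA, Finset.mem_sdiff]
            exact ⟨hx.2, fun h => hxO ((hOO x).2 h)⟩
      have h1 := Finset.card_le_card hsub
      have h2 := hdiff l m y.1 (y.1 + 1) hlm
      have h3 := hsame l y.1 (y.1 + 1) (hi1 _)
      omega
  have hfin := Finset.card_le_mul_card_image univ (2 ^ (2 * t / n)) hfib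
  rw [card_univ, Fintype.card_fin] at hfin
  refine hfin.trans (Nat.mul_le_mul_left _ ?_)
  calc ((univ : Finset (Fin k)).image κ).card ≤
      (univ : Finset (Fin n × (Fin n → Fin B → Option (Fin t)))).card :=
        Finset.card_le_card (Finset.subset_univ _)
    _ = n * ((t + 1) ^ B) ^ n := by simp

end Pool.Agent.K3h86.QI
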