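import Pool.Agent.K3h86.QI.Walk

set_option autoImplicit false

/-!
Merging two codes of the same length and size.
-/

namespace Pool.Agent.K3h86.QI

open Finset

variable {n : ℕ} {ι : Type*} [Fintype ι] [DecidableEq ι]

/-- A set of strings of uniform type such that any two different strings show each pair `(i, j)`,
`i ≠ j`, of letters at at least `r i j` coordinates. -/
structure IsCode (s : ℕ) (r : Fin n → Fin n → ℕ) (D : Finset (ι → Fin n)) : Prop where
  uni : ∀ x ∈ D, Uni s x
  good : ∀ x ∈ D, ∀ y ∈ D, x ≠ y → ∀ i j, i ≠ j → r i j ≤ cnt x y i j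

omit [DecidableEq ι] in
theorem cnt_blocks {K : ℕ} (u v : Fin K → ι → Fin n) (i j : Fin n) :
    cnt (fun q : Fin K × ι => u q.1 q.2) (fun q => v q.1 q.2) i j =
      ∑ b, cnt (u b) (v b) i j := by
  classical
  unfold cnt
  simp only [Finset.card_filter]
  rw [Fintype.sum_prod_type]

omit [DecidableEq ι] in
theorem uni_blocks {K s : ℕ} (u : Fin K → ι → Fin n) (h : ∀ b, Uni s (u b)) :
    Uni (K * s) (fun q : Fin K × ι => u q.1 q.2) := by
  classical
  intro i
  have h1 : ∀ b, (∑ c, if u b c = i then 1 else 0) = s := by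
    intro b
    rw [← Finset.card_filter]
    exact h b i
  rw [Finset.card_filter, Fintype.sum_prod_type]
  simp only [h1]
  simp

theorem merge [NeZero n] {s : ℕ} {r₁ r₂ : Fin n → Fin n → ℕ} {D E : Finset (ι → Fin n)}
    (hD : IsCode s r₁ D) (hE : IsCode s r₂ E) (hcard : D.card = E.card) (hne : D.Nonempty)
    (K : ℕ) :
    ∃ D' : Finset (Fin K × ι → Fin n), IsCode (K * s) (fun i j => r₁ i j + r₂ i j) D' ∧
      D.card ^ K ≤ D'.card * (Fintype.card (Equiv.Perm ι) * n ^ Fintype.card ι) := by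
  classical
  obtain ⟨e, he⟩ := exists_matching hD.uni hE.uni hcard
  obtain ⟨d0, hd0⟩ := hne
  -- extension of messages
  let ext : (Fin K → D) → ℕ → D := fun x l => if h : l < K then x ⟨l, h⟩ else ⟨d0, hd0⟩
  have hext : ∀ x (b : Fin K), ext x b = x b := by
    intro x b
    simp only [ext, b.2, dite_true]
  let word : (Fin K → D) → (Fin K × ι → Fin n) := fun x q => em e (ext x) q.1 q.2
  let Φ : (Fin K → D) → Equiv.Perm ι × (ι → Fin n) :=
    fun x => (st e (ext x) K, ∑ l ∈ range K, em e (ext x) l)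
  -- pigeonhole
  obtain ⟨y, hy⟩ : ∃ y, D.card ^ K ≤ (univ.filter fun x => Φ x = y).card *
      (Fintype.card (Equiv.Perm ι) * n ^ Fintype.card ι) := by
    by_contra hcon
    push Not at hcon
    have h1 : Fintype.card (Fin K → D) = D.card ^ K := by simp
    have h2 : Fintype.card (Equiv.Perm ι × (ι → Fin n)) =
        Fintype.card (Equiv.Perm ι) * n ^ Fintype.card ι := by simp
    have h3 : ∑ y, (univ.filter fun x => Φ x = y).card = D.card ^ K := by
      rw [← h1, ← Finset.card_univ]
      exact (Finset.card_eq_sum_card_fiberwise (fun x _ => Finset.mem_univ (Φ x))).symm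
    have h4 : (0 : ℕ) < Fintype.card (Equiv.Perm ι × (ι → Fin n)) :=
      Fintype.card_pos_iff.2 ⟨(1, fun _ => 0)⟩
    have h5 : ∑ y, (univ.filter fun x => Φ x = y).card *
        (Fintype.card (Equiv.Perm ι) * n ^ Fintype.card ι) <
        ∑ _y : Equiv.Perm ι × (ι → Fin n), D.card ^ K := by
      apply Finset.sum_lt_sum_of_nonempty (Finset.univ_nonempty_iff.2 (Fintype.card_pos_iff.1 h4))
      intro y _
      exact hcon y
    rw [← Finset.sum_mul, h3, Finset.sum_const, Finset.card_univ, h2, smul_eq_mul, mul_comm] at h5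
    exact lt_irrefl _ h5
  set S := univ.filter fun x => Φ x = y with hS
  have hΦ : ∀ x ∈ S, ∀ x' ∈ S, x ≠ x' → ∃ l l', l < l' ∧ l' < K ∧
      (∃ (σ : Equiv.Perm ι) (z z' : D), z ≠ z' ∧ em e (ext x) l = (z : ι → Fin n) ∘ σ ∧
        em e (ext x') l = (z' : ι → Fin n) ∘ σ) ∧
      (∃ (σ : Equiv.Perm ι) (z z' : E), z ≠ z' ∧ em e (ext x) l' = (z : ι → Fin n) ∘ σ ∧
        em e (ext x') l' = (z' : ι → Fin n) ∘ σ) := by
    intro x hx x' hx' hxx
    rw [hS, mem_filter] at hx hx'
    have h1 := hx.2.trans hx'.2.symm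
    apply two_blocks e he
    · by_contra hcon
      push Not at hcon
      apply hxx
      funext b
      have := hcon b b.2
      rwa [hext, hext] at this
    · exact congrArg Prod.fst h1
    · exact congrArg Prod.snd h1
  have hcomp : ∀ {F : Finset (ι → Fin n)} {σ : Equiv.Perm ι} {z z' : F}, z ≠ z' →
      (z : ι → Fin n) ∘ σ ≠ (z' : ι → Fin n) ∘ σ := by
    intro F σ z z' h h'
    apply h
    apply Subtype.ext
    funext c
    have := congrFun h' (σ.symm c)
    simpa using this
  have hinj : Set.InjOn word S := by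
    intro x hx x' hx' hw
    by_contra hxx
    obtain ⟨l, l', hll, hlK, ⟨σ, z, z', hz, h1, h2⟩, -⟩ := hΦ x hx x' hx' hxx
    apply hcomp (σ := σ) hz
    rw [← h1, ← h2]
    funext c
    exact congrFun hw (⟨l, by omega⟩, c)
  refine ⟨S.image word, ⟨?_, ?_⟩, ?_⟩
  · intro w hw
    rw [mem_image] at hw
    obtain ⟨x, -, rfl⟩ := hw
    refine uni_blocks (fun b : Fin K => em e (ext x) b) fun b => ?_
    exact uni_comp (hD.uni _ (ext x b).2) _
  · intro w hw w' hw' hne i j hij
    rw [mem_image] at hw hw'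
    obtain ⟨x, hx, rfl⟩ := hw
    obtain ⟨x', hx', rfl⟩ := hw'
    have hxx : x ≠ x' := fun h => hne (by rw [h])
    obtain ⟨l, l', hll, hlK, ⟨σ, z, z', hz, h1, h2⟩, ⟨τ, v, v', hv, h3, h4⟩⟩ := hΦ x hx x' hx' hxx
    have h5 : r₁ i j ≤ cnt (em e (ext x) l) (em e (ext x') l) i j := by
      rw [h1, h2, cnt_comp]
      exact hD.good _ z.2 _ z'.2 (fun h => hz (Subtype.ext h)) i j hij
    have h6 : r₂ i j ≤ cnt (em e (ext x) l') (em e (ext x') l') i j := by
      rw [h3, h4, cnt_comp]
      exact hE.good _ v.2 _ v'.2 (fun h => hv (Subtype.ext h)) i j hij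
    have h7 := cnt_blocks (fun b : Fin K => em e (ext x) b) (fun b : Fin K => em e (ext x') b) i j
    show r₁ i j + r₂ i j ≤ cnt (fun q : Fin K × ι => em e (ext x) q.1 q.2)
      (fun q => em e (ext x') q.1 q.2) i j
    rw [h7]
    have hneq : (⟨l, by omega⟩ : Fin K) ≠ ⟨l', hlK⟩ := by
      intro h
      have := congrArg Fin.val h
      simp at this
      omega
    calc r₁ i j + r₂ i j ≤ cnt (em e (ext x) l) (em e (ext x') l) i j +
          cnt (em e (ext x) l') (em e (ext x') l') i j := add_le_add h5 h6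
      _ = ∑ b ∈ ({⟨l, by omega⟩, ⟨l', hlK⟩} : Finset (Fin K)),
          cnt (em e (ext x) b) (em e (ext x') b) i j := by
          rw [Finset.sum_pair hneq]
      _ ≤ _ := Finset.sum_le_sum_of_subset (Finset.subset_univ _)
  · rwa [Finset.card_image_of_injOn hinj]

end Pool.Agent.K3h86.QI
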