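import Pool.Agent.K3h86.QI.Merge

set_option autoImplicit false

/-!
Codes for a single pair of letters, and codes of rate close to `2` for all pairs.
-/

namespace Pool.Agent.K3h86.QI

open Finset Filter Topology

variable {n : ℕ}

/-- the requirement of a single pair of letters -/
def eReq (a b : Fin n) (i j : Fin n) : ℕ := if (i = a ∧ j = b) ∨ (i = b ∧ j = a) then 1 else 0

theorem base_code {ι : Type} [Fintype ι] [DecidableEq ι] {s : ℕ} {z : ι → Fin n} (hz : Uni s z)
    {a b : Fin n} (hab : a ≠ b) :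
    ∃ D : Finset (ι → Fin n), IsCode s (eReq a b) D ∧ D.card = (2 * s).choose s := by
  classical
  set U : Finset ι := univ.filter fun c => z c = a ∨ z c = b with hU
  have hUcard : U.card = 2 * s := by
    have h1 : U = (univ.filter fun c => z c = a) ∪ (univ.filter fun c => z c = b) := by
      rw [hU, Finset.filter_or]
    rw [h1, Finset.card_union_of_disjoint, hz a, hz b]
    · ring
    · rw [Finset.disjoint_filter]
      intro c _ h h'
      exact hab (h.symm.trans h')
  let x : Finset ι → ι → Fin n := fun A c => if c ∈ A then a else if c ∈ U then b else z c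
  have hxinj : ∀ A ∈ powersetCard s U, ∀ B ∈ powersetCard s U, x A = x B → A = B := by
    intro A hA B hB h
    rw [mem_powersetCard] at hA hB
    have key : ∀ A B : Finset ι, A ⊆ U → B ⊆ U → x A = x B → A ⊆ B := by
      intro A B hA hB h c hc
      have := congrFun h c
      simp only [x, hc, if_true] at this
      by_contra hcB
      simp only [hcB, if_false, hA hc, if_true] at this
      exact hab this
    exact Finset.Subset.antisymm (key A B hA.1 hB.1 h) (key B A hB.1 hA.1 h.symm)
  refine ⟨(powersetCard s U).image x, ⟨?_, ?_⟩, ?_⟩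
  · intro w hw i
    rw [mem_image] at hw
    obtain ⟨A, hA, rfl⟩ := hw
    rw [mem_powersetCard] at hA
    by_cases hia : i = a
    · subst hia
      have : (univ.filter fun c => x A c = i) = A := by
        ext c
        simp only [mem_filter, mem_univ, true_and, x]
        by_cases hc : c ∈ A
        · simp [hc]
        · simp only [hc, if_false, iff_false]
          by_cases hcU : c ∈ U
          · simp only [hcU, if_true]
            exact fun h => hab h.symm
          · simp only [hcU, if_false]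
            intro h
            apply hcU
            rw [hU, mem_filter]
            exact ⟨mem_univ _, Or.inl h⟩
      rw [this, hA.2]
    · by_cases hib : i = b
      · subst hib
        have : (univ.filter fun c => x A c = i) = U \ A := by
          ext c
          simp only [mem_filter, mem_univ, true_and, x, Finset.mem_sdiff]
          by_cases hc : c ∈ A
          · simp only [hc, if_true, not_true, and_false, iff_false]
            exact hab
          · simp only [hc, if_false, not_false_eq_true, and_true]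
            by_cases hcU : c ∈ U
            · simp [hcU]
            · simp only [hcU, if_false, iff_false]
              intro h
              apply hcU
              rw [hU, mem_filter]
              exact ⟨mem_univ _, Or.inr h⟩
        rw [this, Finset.card_sdiff_of_subset hA.1, hA.2, hUcard]
        omega
      · have : (univ.filter fun c => x A c = i) = univ.filter fun c => z c = i := by
          ext c
          simp only [mem_filter, mem_univ, true_and, x]
          by_cases hc : c ∈ A
          · have hcU := hA.1 hc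
            rw [hU, mem_filter] at hcU
            simp only [hc, if_true]
            constructor
            · intro h; exact absurd h.symm hia
            · intro h
              rcases hcU.2 with h' | h'
              · exact absurd (h.symm.trans h') hia
              · exact absurd (h.symm.trans h') hib
          · simp only [hc, if_false]
            by_cases hcU : c ∈ U
            · simp only [hcU, if_true]
              rw [hU, mem_filter] at hcU
              constructor
              · intro h; exact absurd h.symm hib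
              · intro h
                rcases hcU.2 with h' | h'
                · exact absurd (h.symm.trans h') hia
                · exact absurd (h.symm.trans h') hib
            · simp only [hcU, if_false]
        rw [this, hz i]
  · intro w hw w' hw' hne i j hij
    rw [mem_image] at hw hw'
    obtain ⟨A, hA, rfl⟩ := hw
    obtain ⟨B, hB, rfl⟩ := hw'
    have hAB : A ≠ B := fun h => hne (by rw [h])
    rw [mem_powersetCard] at hA hB
    unfold eReq
    have key : ∀ A B : Finset ι, A ⊆ U → B ⊆ U → A.card = B.card → A ≠ B →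
        1 ≤ cnt (x A) (x B) a b := by
      intro A B hA hB hc hne
      have : ¬ A ⊆ B := fun h => hne (Finset.eq_of_subset_of_card_le h hc.ge)
      rw [Finset.not_subset] at this
      obtain ⟨c, hcA, hcB⟩ := this
      unfold cnt
      rw [Nat.one_le_iff_ne_zero, Finset.card_ne_zero]
      exact ⟨c, by simp [x, hcA, hcB, hA hcA]⟩
    have hsymm : ∀ u v : ι → Fin n, cnt u v b a = cnt v u a b := by
      intro u v
      unfold cnt
      congr 1
      ext c
      simp only [mem_filter, mem_univ, true_and]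
      exact and_comm
    split_ifs with h
    · rcases h with ⟨rfl, rfl⟩ | ⟨rfl, rfl⟩
      · exact key A B hA.1 hB.1 (hA.2.trans hB.2.symm) hAB
      · rw [hsymm]
        exact key B A hB.1 hA.1 (hB.2.trans hA.2.symm) (Ne.symm hAB)
    · exact Nat.zero_le _
  · rw [Finset.card_image_of_injOn, card_powersetCard, hUcard]
    intro A hA B hB h
    exact hxinj A hA B hB h

/-- there are codes of rate arbitrarily close to `2` -/
def Rate (r : Fin n → Fin n → ℕ) : Prop :=
  ∀ ε : ℝ, 0 < ε → ∀ s₀ : ℕ, ∃ s, s₀ ≤ s ∧ 0 < s ∧ ∃ (ι : Type) (_ : Fintype ι) (_ : DecidableEq ι)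
    (D : Finset (ι → Fin n)), IsCode s r D ∧ (2 : ℝ) ^ ((2 - ε) * s) ≤ D.card

theorem large_choose {ε : ℝ} (hε : 0 < ε) :
    ∃ S : ℕ, ∀ s, S ≤ s → (2 : ℝ) ^ ((2 - ε) * s) ≤ ((2 * s).choose s : ℕ) := by
  have hr : (1 : ℝ) < (2 : ℝ) ^ ε := Real.one_lt_rpow (by norm_num) hε
  have h1 := tendsto_pow_const_div_const_pow_of_one_lt 1 hr
  have h2 := (h1.eventually_lt_const (u := 1 / 2) (by norm_num)).and (eventually_gt_atTop 0)
  obtain ⟨S, hS⟩ := eventually_atTop.1 h2
  refine ⟨S, fun s hs => ?_⟩
  obtain ⟨h3, h4⟩ := hS s hs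
  have h5 : (0 : ℝ) < ((2 : ℝ) ^ ε) ^ s := by positivity
  rw [div_lt_iff₀ h5] at h3
  have h6 := Nat.four_pow_le_two_mul_self_mul_centralBinom s h4
  rw [Nat.centralBinom_eq_two_mul_choose] at h6
  have h7 : (4 : ℝ) ^ s ≤ 2 * s * ((2 * s).choose s : ℕ) := by exact_mod_cast h6
  have h8 : (2 : ℝ) ^ ((2 - ε) * s) * ((2 : ℝ) ^ ε) ^ s = 4 ^ s := by
    rw [← Real.rpow_natCast ((2 : ℝ) ^ ε) s, ← Real.rpow_mul (by norm_num),
      ← Real.rpow_add (by norm_num)]
    rw [show (2 - ε) * (s : ℝ) + ε * s = 2 * s by ring, Real.rpow_mul (by norm_num),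
      Real.rpow_natCast]
    norm_num
  have h9 : (0 : ℝ) ≤ ((2 * s).choose s : ℕ) := Nat.cast_nonneg _
  have h10 : 2 * (s : ℝ) ≤ ((2 : ℝ) ^ ε) ^ s := by
    rw [pow_one] at h3
    linarith
  have h11 : (2 : ℝ) ^ ((2 - ε) * s) * ((2 : ℝ) ^ ε) ^ s ≤
      ((2 * s).choose s : ℕ) * ((2 : ℝ) ^ ε) ^ s := by
    rw [h8]
    calc (4 : ℝ) ^ s ≤ 2 * s * ((2 * s).choose s : ℕ) := h7
      _ ≤ ((2 : ℝ) ^ ε) ^ s * ((2 * s).choose s : ℕ) := mul_le_mul_of_nonneg_right h10 h9
      _ = _ := mul_comm _ _
  exact le_of_mul_le_mul_right h11 h5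

theorem uni_fst (s : ℕ) : Uni s (fun q : Fin n × Fin s => q.1) := by
  classical
  intro i
  rw [Finset.card_filter, Fintype.sum_prod_type, Finset.sum_comm]
  have h : ∀ y : Fin s, (∑ x : Fin n, if x = i then 1 else 0) = 1 := by
    intro y
    rw [Finset.sum_ite_eq']
    simp
  rw [Finset.sum_congr rfl (fun y _ => h y)]
  simp

theorem rate_base {a b : Fin n} (hab : a ≠ b) : Rate (eReq a b) := by
  intro ε hε s₀
  obtain ⟨S, hS⟩ := large_choose hε
  set s := max (max S s₀) 1 with hs
  have h1 : S ≤ s := (le_max_left _ _).trans (le_max_left _ _)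
  have h2 : s₀ ≤ s := (le_max_right _ _).trans (le_max_left _ _)
  have h3 : 1 ≤ s := le_max_right _ _
  obtain ⟨D, hD, hc⟩ := base_code (uni_fst (n := n) s) hab
  exact ⟨s, h2, h3, Fin n × Fin s, inferInstance, inferInstance, D, hD, by rw [hc]; exact hS s h1⟩

theorem rate_step {r : Fin n → Fin n → ℕ} (h : Rate r) {a b : Fin n} (hab : a ≠ b) :
    Rate (fun i j => r i j + eReq a b i j) := by
  classical
  haveI : NeZero n := ⟨by rintro rfl; exact a.elim0⟩
  intro ε hε s₀
  obtain ⟨S, hS⟩ := large_choose (half_pos hε)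
  obtain ⟨s, hs, hspos, ι, i1, i2, D, hD, hDc⟩ := h (ε / 2) (half_pos hε) (max S s₀)
  have hDne : D.Nonempty := by
    rw [← Finset.card_pos]
    have : (0 : ℝ) < D.card := lt_of_lt_of_le (by positivity) hDc
    exact_mod_cast this
  obtain ⟨z, hz⟩ := hDne
  obtain ⟨E, hE, hEc⟩ := base_code (hD.uni z hz) hab
  have hEc' : (2 : ℝ) ^ ((2 - ε / 2) * s) ≤ E.card := by
    rw [hEc]; exact hS s ((le_max_left _ _).trans hs)
  set N := ⌈(2 : ℝ) ^ ((2 - ε / 2) * s)⌉₊ with hN
  have hND : N ≤ D.card := Nat.ceil_le.2 hDc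
  have hNE : N ≤ E.card := Nat.ceil_le.2 hEc'
  have hNpos : 0 < N := Nat.ceil_pos.2 (by positivity)
  obtain ⟨D₁, hD₁, hD₁c⟩ := Finset.exists_subset_card_eq hND
  obtain ⟨E₁, hE₁, hE₁c⟩ := Finset.exists_subset_card_eq hNE
  have hC1 : IsCode s r D₁ := ⟨fun x hx => hD.uni x (hD₁ hx), fun x hx y hy => hD.good x (hD₁ hx) y (hD₁ hy)⟩
  have hC2 : IsCode s (eReq a b) E₁ :=
    ⟨fun x hx => hE.uni x (hE₁ hx), fun x hx y hy => hE.good x (hE₁ hx) y (hE₁ hy)⟩
  set M := Fintype.card (Equiv.Perm ι) * n ^ Fintype.card ι with hM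
  have hMpos : 0 < M := Nat.mul_pos Fintype.card_pos (pow_pos (Nat.pos_of_ne_zero (NeZero.ne n)) _)
  -- choice of the number of blocks
  have hq : (1 : ℝ) < (2 : ℝ) ^ (ε / 2 * s) := Real.one_lt_rpow (by norm_num) (by positivity)
  obtain ⟨K₀, hK₀⟩ := pow_unbounded_of_one_lt (M : ℝ) hq
  set K := max K₀ (max s₀ 1) with hK
  have hK1 : K₀ ≤ K := le_max_left _ _
  have hK2 : s₀ ≤ K := (le_max_left _ _).trans (le_max_right _ _)
  have hK3 : 1 ≤ K := (le_max_right _ _).trans (le_max_right _ _)
  have hMK : (M : ℝ) ≤ ((2 : ℝ) ^ (ε / 2 * s)) ^ K := hK₀.le.trans (pow_le_pow_right₀ hq.le hK1)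
  obtain ⟨D', hD', hcard⟩ := merge hC1 hC2 (hD₁c.trans hE₁c.symm)
    (Finset.card_pos.1 (by rw [hD₁c]; exact hNpos)) K
  refine ⟨K * s, le_trans hK2 (Nat.le_mul_of_pos_right _ hspos), Nat.mul_pos hK3 hspos,
    Fin K × ι, inferInstance, inferInstance, D', hD', ?_⟩
  rw [hD₁c] at hcard
  have h1 : ((2 : ℝ) ^ ((2 - ε / 2) * s)) ^ K ≤ (N : ℝ) ^ K :=
    pow_le_pow_left₀ (by positivity) (Nat.le_ceil _) K
  have h2 : (N : ℝ) ^ K ≤ D'.card * M := by exact_mod_cast hcard
  have hMr : (0 : ℝ) < M := by exact_mod_cast hMpos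
  have h3 : (2 : ℝ) ^ ((2 - ε) * (K * s : ℕ)) * ((2 : ℝ) ^ (ε / 2 * s)) ^ K =
      ((2 : ℝ) ^ ((2 - ε / 2) * s)) ^ K := by
    rw [← Real.rpow_natCast, ← Real.rpow_natCast, ← Real.rpow_mul (by norm_num),
      ← Real.rpow_mul (by norm_num), ← Real.rpow_add (by norm_num)]
    congr 1
    push_cast
    ring
  have h4 : (2 : ℝ) ^ ((2 - ε) * (K * s : ℕ)) * M ≤ D'.card * M := by
    calc (2 : ℝ) ^ ((2 - ε) * (K * s : ℕ)) * M ≤
        (2 : ℝ) ^ ((2 - ε) * (K * s : ℕ)) * ((2 : ℝ) ^ (ε / 2 * s)) ^ K :=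
          mul_le_mul_of_nonneg_left hMK (by positivity)
      _ = ((2 : ℝ) ^ ((2 - ε / 2) * s)) ^ K := h3
      _ ≤ (N : ℝ) ^ K := h1
      _ ≤ _ := h2
  exact le_of_mul_le_mul_right h4 hMr

theorem rate_mono {r r' : Fin n → Fin n → ℕ} (h : Rate r') (hr : ∀ i j, i ≠ j → r i j ≤ r' i j) :
    Rate r := by
  intro ε hε s₀
  obtain ⟨s, hs, hspos, ι, i1, i2, D, hD, hDc⟩ := h ε hε s₀
  exact ⟨s, hs, hspos, ι, i1, i2, D, ⟨hD.uni, fun x hx y hy hne i j hij =>
    (hr i j hij).trans (hD.good x hx y hy hne i j hij)⟩, hDc⟩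

theorem rate_finset {r : Fin n → Fin n → ℕ} (h : Rate r) (Q : Finset (Fin n × Fin n))
    (hQ : ∀ q ∈ Q, q.1 ≠ q.2) : Rate (fun i j => r i j + ∑ q ∈ Q, eReq q.1 q.2 i j) := by
  classical
  induction Q using Finset.induction_on with
  | empty => simpa using h
  | insert q Q hq ih =>
    have h1 := rate_step (ih (fun q' hq' => hQ q' (mem_insert_of_mem hq')))
      (hQ q (mem_insert_self _ _))
    refine rate_mono h1 fun i j _ => ?_
    rw [Finset.sum_insert hq]
    omega

theorem rate_all (hn : 2 ≤ n) (p : ℕ) : Rate (fun _ _ : Fin n => p) := by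
  classical
  have h0 : (⟨0, by omega⟩ : Fin n) ≠ ⟨1, by omega⟩ := by
    intro h
    have := congrArg Fin.val h
    simp at this
  set Q : Finset (Fin n × Fin n) := univ.filter fun q => q.1 ≠ q.2 with hQ
  have hQ' : ∀ q ∈ Q, q.1 ≠ q.2 := fun q hq => (mem_filter.1 hq).2
  have h1 : ∀ m : ℕ, Rate (fun i j => eReq (⟨0, by omega⟩ : Fin n) ⟨1, by omega⟩ i j +
      m * ∑ q ∈ Q, eReq q.1 q.2 i j) := by
    intro m
    induction m with
    | zero => simpa using rate_base h0
    | succ m ih =>
      refine rate_mono (rate_finset ih Q hQ') fun i j _ => ?_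
      rw [Nat.succ_mul]
      omega
  refine rate_mono (h1 p) fun i j hij => ?_
  have h2 : 1 ≤ ∑ q ∈ Q, eReq q.1 q.2 i j := by
    have h3 : (i, j) ∈ Q := by
      rw [hQ, mem_filter]
      exact ⟨mem_univ _, hij⟩
    calc 1 = eReq i j i j := by simp [eReq]
      _ ≤ _ := Finset.single_le_sum (f := fun q : Fin n × Fin n => eReq q.1 q.2 i j)
        (fun q _ => Nat.zero_le _) h3
  calc p = p * 1 := (mul_one p).symm
    _ ≤ p * ∑ q ∈ Q, eReq q.1 q.2 i j := Nat.mul_le_mul_left _ h2
    _ ≤ _ := Nat.le_add_left _ _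

omit n in
theorem card_of_uni {n : ℕ} {ι : Type*} [Fintype ι] {s : ℕ} {x : ι → Fin n} (h : Uni s x) :
    Fintype.card ι = n * s := by
  classical
  rw [← Finset.card_univ, Finset.card_eq_sum_card_fiberwise (f := x) (t := univ)
    (fun c _ => Finset.mem_coe.2 (mem_univ _))]
  rw [Finset.sum_congr rfl (fun i _ => h i)]
  simp

end Pool.Agent.K3h86.QI
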