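import Pool.Agent.K3h86.QI.Rate
import Pool.Agent.K3h86.QI.Lower

set_option autoImplicit false

/-!
The upper bound for the `p`-intersection number of complete multipartite graphs, and the
asymptotic value.
-/

namespace Pool.Agent.K3h86.QI

open Finset Filter Topology

theorem rep_of {V X : Type*} [Fintype X] [DecidableEq X] {G : SimpleGraph V} {p : ℕ}
    (S : V → Finset X) (h : ∀ u v, u ≠ v → (G.Adj u v ↔ p ≤ (S u ∩ S v).card)) :
    Rep G p (Fintype.card X) := by
  classical
  refine ⟨fun v => (S v).map (Fintype.equivFin X).toEmbedding, fun u v huv => ?_⟩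
  rw [h u v huv, ← Finset.map_inter, Finset.card_map]

/-- The representation of the complete multipartite graph from a code. -/
theorem rep_of_code {n p s k m : ℕ} (hp : 1 ≤ p) {ι : Type} [Fintype ι] [DecidableEq ι]
    {D : Finset (ι → Fin n)} (hD : IsCode s (fun _ _ => p) D) (hk : k ≤ D.card ^ m) :
    Rep (SimpleGraph.completeMultipartiteGraph fun _ : Fin k => Fin n) p
      (m * Fintype.card ι + n * p) := by
  classical
  have h1 : Fintype.card (Fin k) ≤ Fintype.card (Fin m → D) := by simpa using hk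
  obtain ⟨w⟩ := Function.Embedding.nonempty_of_card_le h1
  have hX : Fintype.card ((Fin m × ι) ⊕ (Fin n × Fin p)) = m * Fintype.card ι + n * p := by simp
  rw [← hX]
  refine rep_of (fun v : (Σ _ : Fin k, Fin n) =>
    (univ.filter fun q : (Fin m × ι) ⊕ (Fin n × Fin p) =>
      Sum.elim (fun q => (w v.1 q.1 : ι → Fin n) q.2 = v.2) (fun q => q.1 = v.2) q)) ?_
  rintro ⟨l, i⟩ ⟨l', i'⟩ hne
  have hadj : (SimpleGraph.completeMultipartiteGraph fun _ : Fin k => Fin n).Adj ⟨l, i⟩ ⟨l', i'⟩ ↔
      l ≠ l' := Iff.rfl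
  rw [hadj]
  constructor
  · intro hll
    have hw : w l ≠ w l' := fun h => hll (w.injective h)
    obtain ⟨b, hb⟩ := Function.ne_iff.1 hw
    by_cases hii : i = i'
    · subst hii
      -- the constant coordinates
      have : (univ : Finset (Fin p)).card ≤ _ := Finset.card_le_card_of_injOn
        (s := (univ : Finset (Fin p)))
        (t := (univ.filter fun q : (Fin m × ι) ⊕ (Fin n × Fin p) =>
          Sum.elim (fun q => (w l q.1 : ι → Fin n) q.2 = i) (fun q => q.1 = i) q) ∩
          (univ.filter fun q : (Fin m × ι) ⊕ (Fin n × Fin p) =>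
          Sum.elim (fun q => (w l' q.1 : ι → Fin n) q.2 = i) (fun q => q.1 = i) q))
        (fun a => Sum.inr (i, a)) (by
          intro a _
          simp) (by
          intro a _ a' _ h
          simpa using h)
      simpa using this
    · have h2 := hD.good _ (w l b).2 _ (w l' b).2 (fun h => hb (Subtype.ext h)) i i' hii
      refine h2.trans ?_
      unfold cnt
      refine Finset.card_le_card_of_injOn (fun c => Sum.inl (b, c)) ?_ ?_
      · intro c hc
        simpa using hc
      · intro c _ c' _ h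
        simpa using h
  · rintro hc rfl
    have hii : i ≠ i' := fun h => hne (by rw [h])
    have hempty : (univ.filter fun q : (Fin m × ι) ⊕ (Fin n × Fin p) =>
          Sum.elim (fun q => (w l q.1 : ι → Fin n) q.2 = i) (fun q => q.1 = i) q) ∩
          (univ.filter fun q : (Fin m × ι) ⊕ (Fin n × Fin p) =>
          Sum.elim (fun q => (w l q.1 : ι → Fin n) q.2 = i') (fun q => q.1 = i') q) = ∅ := by
      rw [← Finset.filter_and, Finset.filter_eq_empty_iff]
      rintro (q | q) _ ⟨h3, h4⟩
      · exact hii (h3.symm.trans h4)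
      · exact hii (h3.symm.trans h4)
    simp only [hempty, Finset.card_empty] at hc
    omega

/-- The upper bound. -/
theorem upper {n p : ℕ} (hn : 2 ≤ n) (hp : 1 ≤ p) {b : ℝ} (hb : 1 < b) :
    ∃ C : ℝ, ∀ k : ℕ, 1 ≤ k → ∃ t : ℕ,
      Rep (SimpleGraph.completeMultipartiteGraph fun _ : Fin k => Fin n) p t ∧
      (t : ℝ) ≤ n / 2 * b * Real.logb 2 k + C := by
  set ε : ℝ := 2 - 2 / b with hε
  have hb0 : 0 < b := by linarith
  have hε0 : 0 < ε := by
    have : 2 / b < 2 := by
      rw [div_lt_iff₀ hb0]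
      linarith
    rw [hε]; linarith
  have h2ε : 2 - ε = 2 / b := by rw [hε]; ring
  have h2ε' : 0 < 2 - ε := by rw [h2ε]; positivity
  obtain ⟨s, -, hspos, ι, i1, i2, D, hD, hDc⟩ := rate_all hn p ε hε0 0
  have hsr : (0 : ℝ) < s := by exact_mod_cast hspos
  have hDne : D.Nonempty := by
    rw [← Finset.card_pos]
    have : (0 : ℝ) < D.card := lt_of_lt_of_le (by positivity) hDc
    exact_mod_cast this
  obtain ⟨z, hz⟩ := hDne
  have hcard : Fintype.card ι = n * s := card_of_uni (hD.uni z hz)
  refine ⟨n * s + n * p, fun k hk => ?_⟩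
  set L := Real.logb 2 k with hL
  have hL0 : 0 ≤ L := Real.logb_nonneg (by norm_num) (by exact_mod_cast hk)
  set m := ⌈L / ((2 - ε) * s)⌉₊ with hm
  have hm1 : L ≤ (2 - ε) * s * m := by
    have := Nat.le_ceil (L / ((2 - ε) * s))
    rw [div_le_iff₀ (by positivity)] at this
    linarith
  have hm2 : (m : ℝ) ≤ L / ((2 - ε) * s) + 1 :=
    (Nat.ceil_lt_add_one (by positivity)).le
  have hkm : k ≤ D.card ^ m := by
    have h1 : (k : ℝ) ≤ (D.card : ℝ) ^ m := by
      have hkr : (0 : ℝ) < k := by exact_mod_cast hk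
      calc (k : ℝ) = (2 : ℝ) ^ L := (Real.rpow_logb (by norm_num) (by norm_num) hkr).symm
        _ ≤ (2 : ℝ) ^ ((2 - ε) * s * m) := Real.rpow_le_rpow_of_exponent_le (by norm_num) hm1
        _ = ((2 : ℝ) ^ ((2 - ε) * s)) ^ m := by
            rw [Real.rpow_mul (by norm_num), Real.rpow_natCast]
        _ ≤ _ := pow_le_pow_left₀ (by positivity) hDc m
    exact_mod_cast h1
  refine ⟨m * Fintype.card ι + n * p, rep_of_code hp hD hkm, ?_⟩
  rw [hcard]
  push_cast
  have h3 : (m : ℝ) * (n * s) ≤ (L / ((2 - ε) * s) + 1) * (n * s) :=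
    mul_le_mul_of_nonneg_right hm2 (by positivity)
  have h4 : (L / ((2 - ε) * s) + 1) * (n * s) = n / 2 * b * L + n * s := by
    rw [h2ε]
    field_simp
  linarith

/-- The lower bound. -/
theorem lower_log {n p : ℕ} (hn : 2 ≤ n) (hp : 1 ≤ p) {b : ℝ} (hb0 : 0 < b) (hb : b < 1) :
    ∃ C : ℝ, ∀ k : ℕ, 1 ≤ k → ∀ t : ℕ,
      Rep (SimpleGraph.completeMultipartiteGraph fun _ : Fin k => Fin n) p t →
      n / 2 * b * (Real.logb 2 k - C) ≤ t := by
  have hnr : (0 : ℝ) < n := by exact_mod_cast (by omega : 0 < n)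
  set B : ℕ := n * n * p * n with hB
  -- `δ` with `2 / n + δ = (2 / n) / b`
  set δ : ℝ := 2 / n * (1 / b - 1) with hδ
  have hδ0 : 0 < δ := by
    have : 1 < 1 / b := by rw [lt_div_iff₀ hb0]; linarith
    rw [hδ]
    apply mul_pos (by positivity)
    linarith
  have hBpos : 0 < B := by rw [hB]; positivity
  -- `B logb 2 (t + 1) ≤ δ t + C`
  obtain ⟨C₁, hC₁⟩ : ∃ C : ℝ, ∀ t : ℕ, B * Real.logb 2 (t + 1) ≤ δ * t + C := by
    have h1 : Tendsto (fun x : ℝ => Real.log x / x) atTop (𝓝 0) := by
      have := Real.isLittleO_log_id_atTop.tendsto_div_nhds_zero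
      simpa using this
    have h2 : (0 : ℝ) < δ * Real.log 2 / B := by positivity
    have h3 := (h1.eventually_lt_const h2).and (eventually_gt_atTop 0)
    obtain ⟨M, hM⟩ := eventually_atTop.1 h3
    refine ⟨B * Real.logb 2 (|M| + 1) + δ, fun t => ?_⟩
    rcases le_or_gt M ((t : ℝ) + 1) with h | h
    · obtain ⟨h4, h5⟩ := hM _ h
      rw [div_lt_iff₀ h5] at h4
      have h6 : (B : ℝ) * Real.logb 2 (t + 1) ≤ δ * (t + 1) := by
        rw [Real.logb, ← mul_div_assoc, div_le_iff₀ (Real.log_pos (by norm_num))]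
        have hBr : (0 : ℝ) < B := by exact_mod_cast hBpos
        calc (B : ℝ) * Real.log (t + 1) ≤ B * (δ * Real.log 2 / B * (t + 1)) :=
              mul_le_mul_of_nonneg_left h4.le hBr.le
          _ = δ * (t + 1) * Real.log 2 := by field_simp
      have h7 : 0 ≤ (B : ℝ) * Real.logb 2 (|M| + 1) := by
        apply mul_nonneg (Nat.cast_nonneg _)
        exact Real.logb_nonneg (by norm_num) (by linarith [abs_nonneg M])
      linarith
    · have h4 : Real.logb 2 (t + 1) ≤ Real.logb 2 (|M| + 1) := by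
        apply Real.logb_le_logb_of_le (by norm_num) (by positivity)
        linarith [le_abs_self M]
      have h5 : (B : ℝ) * Real.logb 2 (t + 1) ≤ B * Real.logb 2 (|M| + 1) :=
        mul_le_mul_of_nonneg_left h4 (Nat.cast_nonneg _)
      have h6 : 0 ≤ δ * t := by positivity
      linarith
  refine ⟨C₁ + Real.logb 2 n, fun k hk t ht => ?_⟩
  have h1 := lower hn hp ht
  have hkr : (0 : ℝ) < k := by exact_mod_cast hk
  have h2 : (k : ℝ) ≤ (2 : ℝ) ^ (2 * t / n : ℕ) * (n * (((t : ℝ) + 1) ^ (n * n * p)) ^ n) := by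
    exact_mod_cast h1
  have h3 : Real.logb 2 k ≤ (2 * t / n : ℕ) + (Real.logb 2 n + B * Real.logb 2 (t + 1)) := by
    have h4 := Real.logb_le_logb_of_le (b := 2) (by norm_num) hkr h2
    rw [Real.logb_mul (by positivity) (by positivity), Real.logb_mul (by positivity) (by positivity),
      ← pow_mul, Real.logb_pow, Real.logb_pow, Real.logb_self_eq_one (by norm_num), mul_one,
      ← hB] at h4
    exact h4
  have h5 : ((2 * t / n : ℕ) : ℝ) ≤ 2 * t / n := by
    have := Nat.cast_div_le (α := ℝ) (m := 2 * t) (n := n)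
    push_cast at this
    exact this
  have h6 := hC₁ t
  have h7 : Real.logb 2 k - (C₁ + Real.logb 2 n) ≤ (2 / n + δ) * t := by
    have : 2 * (t : ℝ) / n = 2 / n * t := by ring
    linarith
  have h8 : 2 / n + δ = 2 / n / b := by
    rw [hδ]
    field_simp
    ring
  rw [h8] at h7
  calc (n : ℝ) / 2 * b * (Real.logb 2 k - (C₁ + Real.logb 2 n)) ≤
        n / 2 * b * (2 / n / b * t) := mul_le_mul_of_nonneg_left h7 (by positivity)
    _ = t := by field_simp

theorem tendsto_logb_nat : Tendsto (fun k : ℕ => Real.logb 2 (k : ℝ)) atTop atTop := by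
  have h1 : Tendsto (fun x : ℝ => Real.logb 2 x) atTop atTop := Real.tendsto_logb_atTop (by norm_num)
  exact h1.comp tendsto_natCast_atTop_atTop

/-- The asymptotic value of the `p`-intersection number. -/
theorem asymptotic {n p : ℕ} (hn : 2 ≤ n) (hp : 1 ≤ p) :
    Tendsto (fun k : ℕ =>
      (theta (SimpleGraph.completeMultipartiteGraph fun _ : Fin k => Fin n) p : ℝ) /
        ((n : ℝ) / 2 * Real.logb 2 k)) atTop (𝓝 1) := by
  have hnr : (0 : ℝ) < n := by exact_mod_cast (by omega : 0 < n)
  rw [tendsto_order]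
  constructor
  · intro a ha
    -- `max a 0 < b < 1`
    set b : ℝ := (max a 0 + 1) / 2 with hb
    have hm : max a 0 < 1 := max_lt ha one_pos
    have hb0 : 0 < b := by
      have := le_max_right a 0
      rw [hb]; linarith
    have hb1 : b < 1 := by rw [hb]; linarith
    have hab : a < b := by
      have := le_max_left a 0
      rw [hb]; linarith
    obtain ⟨C, hC⟩ := lower_log hn hp hb0 hb1
    have h1 : Tendsto (fun k : ℕ => b * (1 - C / Real.logb 2 (k : ℝ))) atTop (𝓝 (b * (1 - 0))) :=
      (tendsto_const_nhds.sub (tendsto_logb_nat.const_div_atTop C)).const_mul b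
    rw [sub_zero, mul_one] at h1
    filter_upwards [h1.eventually_const_lt hab, tendsto_logb_nat.eventually_gt_atTop 0,
      eventually_ge_atTop 1] with k h2 h3 h4
    have hrep : Rep (SimpleGraph.completeMultipartiteGraph fun _ : Fin k => Fin n) p
        (theta (SimpleGraph.completeMultipartiteGraph fun _ : Fin k => Fin n) p) := by
      obtain ⟨C', hC'⟩ := upper hn hp (b := 2) (by norm_num)
      obtain ⟨t, ht, -⟩ := hC' k h4
      exact Nat.sInf_mem (s := {t | Rep _ p t}) ⟨t, ht⟩
    have h5 := hC k h4 _ hrep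
    refine lt_of_lt_of_le h2 ?_
    rw [le_div_iff₀ (by positivity)]
    refine le_trans (le_of_eq ?_) h5
    field_simp
  · intro a ha
    set b : ℝ := (a + 1) / 2 with hb
    have hb1 : 1 < b := by rw [hb]; linarith
    have hab : b < a := by rw [hb]; linarith
    obtain ⟨C, hC⟩ := upper hn hp hb1
    have h1 : Tendsto (fun k : ℕ => b + (2 * C / n) / Real.logb 2 (k : ℝ)) atTop (𝓝 (b + 0)) :=
      tendsto_const_nhds.add (tendsto_logb_nat.const_div_atTop (2 * C / n))
    rw [add_zero] at h1
    filter_upwards [h1.eventually_lt_const hab, tendsto_logb_nat.eventually_gt_atTop 0,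
      eventually_ge_atTop 1] with k h2 h3 h4
    obtain ⟨t, ht, ht'⟩ := hC k h4
    refine lt_of_le_of_lt ?_ h2
    rw [div_le_iff₀ (by positivity)]
    have h5 : (theta (SimpleGraph.completeMultipartiteGraph fun _ : Fin k => Fin n) p : ℝ) ≤ t := by
      exact_mod_cast Nat.sInf_le ht
    refine (h5.trans ht').trans (le_of_eq ?_)
    field_simp

end Pool.Agent.K3h86.QI
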