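import Mathlib

set_option autoImplicit false

/-!
Strings with a uniform type and the merging of two codes by walks.
-/

namespace Pool.Agent.K3h86.QI

open Finset

variable {n : ℕ} {ι : Type*} [Fintype ι] [DecidableEq ι]

/-- number of coordinates at which `x` shows `i` and `y` shows `j` -/
def cnt (x y : ι → Fin n) (i j : Fin n) : ℕ :=
  (univ.filter fun c => x c = i ∧ y c = j).card

/-- every letter occurs exactly `s` times in `x` -/
def Uni (s : ℕ) (x : ι → Fin n) : Prop :=
  ∀ i, (univ.filter fun c => x c = i).card = s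

omit [DecidableEq ι] in
theorem cnt_comp (x y : ι → Fin n) (σ : Equiv.Perm ι) (i j : Fin n) :
    cnt (x ∘ σ) (y ∘ σ) i j = cnt x y i j := by
  unfold cnt
  refine Finset.card_bij (fun c _ => σ c) ?_ ?_ ?_
  · intro c hc
    simpa using hc
  · intro c _ c' _ h
    exact σ.injective h
  · intro c hc
    exact ⟨σ.symm c, by simpa using hc, by simp⟩

omit [DecidableEq ι] in
theorem uni_comp {s : ℕ} {x : ι → Fin n} (hx : Uni s x) (σ : Equiv.Perm ι) : Uni s (x ∘ σ) := by
  intro i
  rw [← hx i]
  refine Finset.card_bij (fun c _ => σ c) ?_ ?_ ?_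
  · intro c hc
    simpa using hc
  · intro c _ c' _ h
    exact σ.injective h
  · intro c hc
    exact ⟨σ.symm c, by simpa using hc, by simp⟩

omit [DecidableEq ι] in
theorem uni_trans {s : ℕ} {x y : ι → Fin n} (hx : Uni s x) (hy : Uni s y) :
    ∃ σ : Equiv.Perm ι, x ∘ σ = y := by
  classical
  have h : ∀ i, Nonempty ({c // y c = i} ≃ {c // x c = i}) := by
    intro i
    refine ⟨Fintype.equivOfCardEq ?_⟩
    rw [Fintype.card_subtype, Fintype.card_subtype, hx i, hy i]
  refine ⟨Equiv.ofFiberEquiv (f := y) (g := x) fun i => (h i).some, ?_⟩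
  funext c
  exact Equiv.ofFiberEquiv_map (f := y) (g := x) (fun i => (h i).some) c

/-- the number of permutations that take `x` to `u` does not depend on `x`, `u` -/
theorem card_perm {s : ℕ} {x y u v : ι → Fin n} (hx : Uni s x) (hy : Uni s y) (hu : Uni s u)
    (hv : Uni s v) :
    Fintype.card {σ : Equiv.Perm ι // x ∘ σ = u} = Fintype.card {σ : Equiv.Perm ι // y ∘ σ = v} := by
  obtain ⟨α, hα⟩ := uni_trans hx hy
  obtain ⟨β, hβ⟩ := uni_trans hu hv
  refine Fintype.card_congr ⟨fun σ => ⟨α⁻¹ * σ.1 * β, ?_⟩, fun σ => ⟨α * σ.1 * β⁻¹, ?_⟩, ?_, ?_⟩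
  · rw [← hα, ← hβ]
    funext c
    have := congrFun σ.2 (β c)
    simp only [Function.comp] at this
    simp [Function.comp, this]
  · funext c
    have h1 := congrFun σ.2 (β⁻¹ c)
    have h2 := congrFun hα (σ.1 (β⁻¹ c))
    have h3 := congrFun hβ (β⁻¹ c)
    simp only [Function.comp] at h1 h2 h3
    simp only [Function.comp, Equiv.Perm.coe_mul]
    rw [h2, h1, ← h3]
    simp
  · intro σ
    ext c
    simp
  · intro σ
    ext c
    simp

/-- the matching of the two kinds of edges -/
theorem exists_matching {s : ℕ} {D E : Finset (ι → Fin n)} (hD : ∀ x ∈ D, Uni s x)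
    (hE : ∀ x ∈ E, Uni s x) (h : D.card = E.card) :
    ∃ e : (Equiv.Perm ι × D) ≃ (Equiv.Perm ι × E),
      ∀ q, ((e q).2 : ι → Fin n) ∘ (e q).1 = (q.2 : ι → Fin n) ∘ q.1 := by
  classical
  set f : Equiv.Perm ι × D → (ι → Fin n) := fun q => (q.2 : ι → Fin n) ∘ q.1 with hf
  set g : Equiv.Perm ι × E → (ι → Fin n) := fun q => (q.2 : ι → Fin n) ∘ q.1 with hg
  have key : ∀ (F : Finset (ι → Fin n)), (∀ x ∈ F, Uni s x) → ∀ u : ι → Fin n,
      Fintype.card {q : Equiv.Perm ι × F // (q.2 : ι → Fin n) ∘ q.1 = u} =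
      ∑ x : F, Fintype.card {σ : Equiv.Perm ι // (x : ι → Fin n) ∘ σ = u} := by
    intro F _ u
    rw [← Fintype.card_sigma]
    refine Fintype.card_congr ⟨fun q => ⟨q.1.2, ⟨q.1.1, q.2⟩⟩, fun q => ⟨(q.2.1, q.1), q.2.2⟩, ?_, ?_⟩
    · intro q; rfl
    · intro q; rfl
  have h1 : ∀ u : ι → Fin n, Nonempty ({q // f q = u} ≃ {q // g q = u}) := by
    intro u
    refine ⟨Fintype.equivOfCardEq ?_⟩
    rw [key D hD u, key E hE u]
    by_cases hu : Uni s u
    · have h2 : ∀ (F : Finset (ι → Fin n)), (∀ x ∈ F, Uni s x) →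
          ∑ x : F, Fintype.card {σ : Equiv.Perm ι // (x : ι → Fin n) ∘ σ = u} =
          F.card * Fintype.card {σ : Equiv.Perm ι // u ∘ σ = u} := by
        intro F hF
        rw [Finset.sum_congr rfl (fun x _ => card_perm (hF x.1 x.2) hu hu hu)]
        simp
      rw [h2 D hD, h2 E hE, h]
    · have h2 : ∀ (F : Finset (ι → Fin n)), (∀ x ∈ F, Uni s x) →
          ∑ x : F, Fintype.card {σ : Equiv.Perm ι // (x : ι → Fin n) ∘ σ = u} = 0 := by
        intro F hF
        refine Finset.sum_eq_zero fun x _ => ?_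
        rw [Fintype.card_eq_zero_iff]
        exact ⟨fun σ => hu (σ.2 ▸ uni_comp (hF x.1 x.2) σ.1)⟩
      rw [h2 D hD, h2 E hE]
  refine ⟨Equiv.ofFiberEquiv (f := f) (g := g) fun u => (h1 u).some, fun q => ?_⟩
  exact Equiv.ofFiberEquiv_map (f := f) (g := g) (fun u => (h1 u).some) q

section walk

variable {D E : Finset (ι → Fin n)} (e : (Equiv.Perm ι × D) ≃ (Equiv.Perm ι × E))

/-- the states of the walk of a message -/
def st (m : ℕ → D) : ℕ → Equiv.Perm ι
  | 0 => 1
  | (l + 1) => (e (st m l, m l)).1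

/-- the strings along the walk -/
def em (m : ℕ → D) (l : ℕ) : ι → Fin n := (m l : ι → Fin n) ∘ (st e m l)

omit [Fintype ι] [DecidableEq ι] in
theorem st_congr {m m' : ℕ → D} {l : ℕ} (h : ∀ j < l, m j = m' j) : st e m l = st e m' l := by
  induction l with
  | zero => rfl
  | succ l ih =>
    have h1 := ih (fun j hj => h j (by omega))
    simp only [st]
    rw [h1, h l (by omega)]

variable (he : ∀ q, ((e q).2 : ι → Fin n) ∘ (e q).1 = (q.2 : ι → Fin n) ∘ q.1)

include he

omit [Fintype ι] [DecidableEq ι] in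
theorem em_eq (m : ℕ → D) (l : ℕ) :
    em e m l = ((e (st e m l, m l)).2 : ι → Fin n) ∘ (st e m (l + 1)) := by
  rw [em, st, he]

omit [Fintype ι] [DecidableEq ι] in
theorem back {m m' : ℕ → D} {l : ℕ} (h1 : st e m (l + 1) = st e m' (l + 1))
    (h2 : em e m l = em e m' l) : st e m l = st e m' l ∧ m l = m' l := by
  have h3 := em_eq e he m l
  have h4 := em_eq e he m' l
  rw [h2, h4, h1] at h3
  have h5 : (e (st e m l, m l)).2 = (e (st e m' l, m' l)).2 := by
    apply Subtype.ext
    funext c
    have := congrFun h3 ((st e m' (l + 1)).symm c)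
    simpa using this.symm
  have h6 : e (st e m l, m l) = e (st e m' l, m' l) := Prod.ext h1 h5
  have h7 := e.injective h6
  exact ⟨congrArg Prod.fst h7, congrArg Prod.snd h7⟩

omit [DecidableEq ι] in
/-- Two messages whose walks end in the same state and have the same sum of strings are
distinguished in one block by `D`, and in another block by `E`. -/
theorem two_blocks [NeZero n] {m m' : ℕ → D} {K : ℕ} (hne : ∃ j < K, m j ≠ m' j)
    (hend : st e m K = st e m' K)
    (hsum : ∑ l ∈ range K, em e m l = ∑ l ∈ range K, em e m' l) :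
    ∃ l l', l < l' ∧ l' < K ∧
      (∃ (σ : Equiv.Perm ι) (x x' : D), x ≠ x' ∧ em e m l = (x : ι → Fin n) ∘ σ ∧
        em e m' l = (x' : ι → Fin n) ∘ σ) ∧
      (∃ (σ : Equiv.Perm ι) (x x' : E), x ≠ x' ∧ em e m l' = (x : ι → Fin n) ∘ σ ∧
        em e m' l' = (x' : ι → Fin n) ∘ σ) := by
  classical
  obtain ⟨l, ⟨hlK, hl⟩, hmin⟩ : ∃ l, (l < K ∧ m l ≠ m' l) ∧ ∀ j < l, m j = m' j := by
    have hex : ∃ j, j < K ∧ m j ≠ m' j := hne
    refine ⟨Nat.find hex, Nat.find_spec hex, fun j hj => ?_⟩
    by_contra hcon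
    exact Nat.find_min hex hj ⟨lt_trans hj (Nat.find_spec hex).1, hcon⟩
  have hst : st e m l = st e m' l := st_congr e hmin
  have heml : em e m l ≠ em e m' l := by
    intro h
    apply hl
    apply Subtype.ext
    funext c
    have := congrFun h ((st e m' l).symm c)
    simp only [em, hst, Function.comp, Equiv.apply_symm_apply] at this
    exact this
  -- the last difference
  obtain ⟨l', ⟨hl'K, hl'⟩, hmax⟩ : ∃ l', (l' < K ∧ em e m l' ≠ em e m' l') ∧
      ∀ j, l' < j → j < K → em e m j = em e m' j := by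
    set S := (range K).filter fun j => em e m j ≠ em e m' j with hS
    have hSne : S.Nonempty := ⟨l, by simp [hS, hlK, heml]⟩
    refine ⟨S.max' hSne, ?_, fun j hj hjK => ?_⟩
    · have := S.max'_mem hSne
      exact ⟨mem_range.1 (mem_filter.1 this).1, (mem_filter.1 this).2⟩
    · by_contra hcon
      have : j ∈ S := by
        rw [hS, mem_filter, mem_range]
        exact ⟨hjK, hcon⟩
      have := S.le_max' j this
      omega
  have hst' : ∀ d, l' + 1 + d ≤ K → st e m (K - d) = st e m' (K - d) := by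
    intro d
    induction d with
    | zero => intro _; exact hend
    | succ d ih =>
      intro hd
      have h1 := ih (by omega)
      have h2 : K - d = (K - (d + 1)) + 1 := by omega
      rw [h2] at h1
      exact (back e he h1 (hmax _ (by omega) (by omega))).1
  have hst1 : st e m (l' + 1) = st e m' (l' + 1) := by
    have := hst' (K - (l' + 1)) (by omega)
    rwa [show K - (K - (l' + 1)) = l' + 1 by omega] at this
  have hle : l ≤ l' := by
    by_contra hcon
    exact heml (hmax l (by omega) hlK)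
  have hlt : l < l' := by
    refine lt_of_le_of_ne hle ?_
    rintro rfl
    have hothers : ∀ j ∈ range K, j ≠ l → em e m j = em e m' j := by
      intro j hj hjl
      rcases lt_or_gt_of_ne hjl with h | h
      · rw [em, em, hmin j h, st_congr e (fun i hi => hmin i (by omega))]
      · exact hmax j h (mem_range.1 hj)
    rw [← Finset.add_sum_erase _ _ (mem_range.2 hlK),
      ← Finset.add_sum_erase (range K) (fun j => em e m' j) (mem_range.2 hlK)] at hsum
    rw [Finset.sum_congr rfl (fun j hj => hothers j (mem_of_mem_erase hj) (ne_of_mem_erase hj))]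
      at hsum
    exact heml (add_right_cancel hsum)
  refine ⟨l, l', hlt, hl'K, ⟨st e m' l, m l, m' l, hl, by rw [em, hst], by rw [em]⟩,
    ⟨st e m' (l' + 1), (e (st e m l', m l')).2, (e (st e m' l', m' l')).2, ?_, ?_, ?_⟩⟩
  · intro h
    apply hl'
    rw [em_eq e he, em_eq e he, h, hst1]
  · rw [em_eq e he, hst1]
  · rw [em_eq e he]

end walk

end Pool.Agent.K3h86.QI
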